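import Pool.Agent.W203.SP.Stm

/-! Project SP (helper203), step B2: joint measurability. -/

set_option autoImplicit false

namespace Pool.Agent.W557.SP

open MeasureTheory Set Complex
open scoped ENNReal NNReal FourierTransform RealInnerProductSpace ContDiff
open Pool.Agent.H153R4 (E BS ch ST cube kk dd)
open Pool.Agent.W203.SP

theorem t_MV : S_MV := by
  intro k f hf
  simp only [Real.fourier_eq]
  have h1 : Measurable fun r : ((ℝ × (Fin k → ℝ)) × E k) × E k =>
      Real.fourierChar (-⟪r.2, r.1.2⟫) • ch (fun j => r.1.1.1 * r.1.1.2 j) f r.2 := by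
    have hin : Measurable fun r : ((ℝ × (Fin k → ℝ)) × E k) × E k =>
        -⟪r.2, r.1.2⟫ := by fun_prop
    have hk : Measurable fun r : ((ℝ × (Fin k → ℝ)) × E k) × E k =>
        ch (fun j => r.1.1.1 * r.1.1.2 j) f r.2 := by
      unfold ch
      have hs : ∀ j, Measurable fun r : ((ℝ × (Fin k → ℝ)) × E k) × E k =>
          r.1.1.1 * r.1.1.2 j := fun j => by fun_prop
      have hsum : Measurable fun r : ((ℝ × (Fin k → ℝ)) × E k) × E k =>
          -(2 * Real.pi * ∑ j, (r.1.1.1 * r.1.1.2 j) * r.2 j ^ 2) := by
        refine (measurable_const.mul (Finset.measurable_sum _ fun j _ => ?_)).neg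
        exact (hs j).mul (by fun_prop)
      exact (Complex.measurable_exp.comp
        ((Complex.measurable_ofReal.comp hsum).mul measurable_const)).mul
        (hf.comp measurable_snd)
    have hc : Measurable fun r : ((ℝ × (Fin k → ℝ)) × E k) × E k =>
        ((Real.fourierChar (-⟪r.2, r.1.2⟫) : Circle) : ℂ) :=
      (continuous_subtype_val.comp Real.continuous_fourierChar).measurable.comp hin
    exact hc.mul hk
  exact (h1.stronglyMeasurable.integral_prod_right' (ν := volume)).measurable

end Pool.Agent.W557.SP
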